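import Pool.Agent.P8H49.GM.Stm
import Pool.Agent.H373R2.T7.Fund

/-!
# Project GM (helper49), package MAJ: prime quadruples in a class modulo `W`
-/

set_option autoImplicit false

namespace Pool.Agent.P8H84.GM

open Finset
open Pool.Agent.H373R2.T7 (pz Vz mem_pz nuB PerB sys_fund)
open Pool.Agent.P8H49.GM

theorem WW_pos (w : ℕ) : 1 ≤ WW w :=
  Nat.pos_of_ne_zero (prod_ne_zero_iff.2 fun _ hp => (mem_pz.1 hp).2.ne_zero)

theorem not_dvd_WW {w p : ℕ} (hp : p.Prime) (h : w < p) : ¬ p ∣ WW w := by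
  unfold WW
  intro hd
  obtain ⟨q, hq, hpq⟩ := (hp.prime.dvd_finsetProd_iff _).1 hd
  have hq' := mem_pz.1 hq
  have := (Nat.prime_dvd_prime_iff_eq hp hq'.2).1 hpq
  omega

theorem card_classes {p W : ℕ} (hp : p.Prime) (hW : ¬ p ∣ W) (a : ℕ) (T : Finset ℕ) :
    ((range p).filter (fun r => ∃ t ∈ T, p ∣ a + W * r + t)).card = (T.image (fun t => t % p)).card := by
  have := Fact.mk hp
  have hW0 : (W : ZMod p) ≠ 0 := by
    rw [Ne, ZMod.natCast_eq_zero_iff]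
    exact hW
  refine card_bij' (fun r _ => (-((a : ZMod p) + W * r)).val)
    (fun s _ => ((-(a : ZMod p) - s) * (W : ZMod p)⁻¹).val) ?_ ?_ ?_ ?_
  · intro r hr
    obtain ⟨hr1, t, ht, hd⟩ := mem_filter.1 hr
    rw [mem_image]
    refine ⟨t, ht, ?_⟩
    have h1 : ((a : ZMod p) + W * r + t) = 0 := by
      have := (ZMod.natCast_eq_zero_iff (a + W * r + t) p).2 hd
      exact_mod_cast this
    have h2 : -((a : ZMod p) + W * r) = (t : ZMod p) := by linear_combination -h1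
    simp only [h2, ZMod.val_natCast]
  · intro s hs
    obtain ⟨t, ht, rfl⟩ := mem_image.1 hs
    rw [mem_filter, mem_range]
    refine ⟨ZMod.val_lt _, t, ht, ?_⟩
    rw [← ZMod.natCast_eq_zero_iff]
    push_cast
    rw [ZMod.natCast_zmod_val, ZMod.natCast_mod]
    field_simp
    ring
  · intro r hr
    have hr1 := mem_range.1 (mem_filter.1 hr).1
    have h1 : ((((-((a : ZMod p) + W * r)).val : ℕ) : ZMod p)) = -((a : ZMod p) + W * r) :=
      ZMod.natCast_zmod_val _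
    have h2 : (-(a : ZMod p) - -((a : ZMod p) + W * r)) * (W : ZMod p)⁻¹ = r := by
      field_simp
      ring
    simp only [h1, h2, ZMod.val_natCast, Nat.mod_eq_of_lt hr1]
  · intro s hs
    obtain ⟨t, ht, rfl⟩ := mem_image.1 hs
    have h1 : ((((-(a : ZMod p) - ((t % p : ℕ) : ZMod p)) * (W : ZMod p)⁻¹).val : ℕ) : ZMod p) =
        (-(a : ZMod p) - ((t % p : ℕ) : ZMod p)) * (W : ZMod p)⁻¹ := ZMod.natCast_zmod_val _
    have h2 : -((a : ZMod p) + W * ((-(a : ZMod p) - ((t % p : ℕ) : ZMod p)) * (W : ZMod p)⁻¹)) =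
        ((t % p : ℕ) : ZMod p) := by
      field_simp
      ring
    simp only [h1, h2, ZMod.val_natCast, Nat.mod_mod]

theorem gw_ge (w m : ℕ) : 1 ≤ gw w m := by
  unfold gw
  have h1 : ∀ p ∈ m.primeFactors.filter (fun p => w < p), (1 : ℝ) ≤ 1 + 4 / (p : ℝ) := by
    intro p _
    have : (0 : ℝ) ≤ 4 / (p : ℝ) := by positivity
    linarith
  calc (1 : ℝ) = ∏ p ∈ m.primeFactors.filter (fun p => w < p), (1 : ℝ) := by simp
    _ ≤ _ := prod_le_prod (fun _ _ => zero_le_one) h1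

theorem GG_ge (w k h : ℕ) : 1 ≤ GG w k h := by
  unfold GG
  exact one_le_mul_of_one_le_of_one_le (one_le_mul_of_one_le_of_one_le (gw_ge _ _) (gw_ge _ _)) (gw_ge _ _)

theorem t_maj (hP : S_PROD) : S_MAJ := by
  classical
  obtain ⟨K, x0, hK, hsys⟩ := sys_fund 4 (by norm_num) 1 one_pos
  obtain ⟨K1, hK1⟩ : ∃ K1, K1 = max K 8 := ⟨_, rfl⟩
  refine ⟨K1, 5, by omega, by norm_num, fun w hw => ?_⟩
  obtain ⟨W, hW⟩ : ∃ W, W = WW w := ⟨_, rfl⟩
  have hW1 : 1 ≤ W := by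
    rw [hW]
    exact WW_pos w
  refine ⟨(x0 + 2) ^ K1 + 81 * W ^ 4, fun n hn y hy1 hy2 ξ h k hh1 hhn hk1 hk2 hkh hWk => ?_⟩
  rw [← hW]
  have hyx0 : x0 + 1 ≤ y := by
    by_contra hlt
    have h1 : (y + 1) ^ K1 ≤ (x0 + 2) ^ K1 := Nat.pow_le_pow_left (by omega) _
    omega
  obtain ⟨a, ha⟩ : ∃ a, a = ξ % W := ⟨_, rfl⟩
  obtain ⟨T, hT⟩ : ∃ T : Finset ℕ, T = {0, h, k, k + h} := ⟨_, rfl⟩
  obtain ⟨Q, hQ⟩ : ∃ Q : ℕ → ℕ → Prop, Q = fun p m => w < p ∧ ∃ t ∈ T, p ∣ a + W * m + t := ⟨_, rfl⟩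
  have hnuS : ∀ p : ℕ, p.Prime → nuB Q p = if w < p then nu4 k h p else 0 := by
    intro p hp
    unfold nuB
    by_cases hwp : w < p
    · rw [if_pos hwp]
      have h1 := card_classes hp (W := W) (by rw [hW]; exact not_dvd_WW hp hwp) a T
      unfold nu4
      rw [← hT, ← h1]
      congr 1
      ext r
      rw [mem_filter, mem_filter, hQ]
      constructor
      · rintro ⟨h2, -, h3⟩
        exact ⟨h2, h3⟩
      · rintro ⟨h2, h3⟩
        exact ⟨h2, hwp, h3⟩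
    · rw [if_neg hwp, card_eq_zero, filter_eq_empty_iff]
      intro r _
      rw [hQ]
      rintro ⟨h1, -⟩
      exact hwp h1
  have hper : PerB Q 4 := by
    refine ⟨fun p m => ?_, fun p hp => ?_⟩
    · rw [hQ]
      have h1 : ∀ t : ℕ, (p ∣ a + W * m + t ↔ p ∣ a + W * (m % p) + t) := by
        intro t
        have h2 : a + W * m + t ≡ a + W * (m % p) + t [MOD p] :=
          ((Nat.ModEq.refl a).add ((Nat.ModEq.refl W).mul (Nat.mod_modEq m p).symm)).add (Nat.ModEq.refl t)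
        exact h2.dvd_iff (dvd_refl p)
      constructor
      · rintro ⟨h2, t, ht, h3⟩
        exact ⟨h2, t, ht, (h1 t).1 h3⟩
      · rintro ⟨h2, t, ht, h3⟩
        exact ⟨h2, t, ht, (h1 t).2 h3⟩
    · rw [hnuS p hp]
      split_ifs with h1
      · unfold nu4
        exact card_image_le.trans card_le_four
      · omega
  obtain ⟨X, hX⟩ : ∃ X, X = 2 * n / W := ⟨_, rfl⟩
  have hyK : y ^ K ≤ n := (Nat.pow_le_pow_right (by omega) (by omega)).trans hy1
  have hcnt := hsys n y (by omega) hyK Q hper X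
  have hprod : ∏ p ∈ pz y, (1 - (nuB Q p : ℝ) / p) =
      ∏ p ∈ (pz y).filter (fun p => w < p), (1 - (nu4 k h p : ℝ) / p) := by
    rw [prod_filter]
    refine prod_congr rfl fun p hp => ?_
    rw [hnuS p (mem_pz.1 hp).2]
    split_ifs <;> simp
  have hP1 := hP.1 w y k h hw hh1 hk1 hkh
  have hP2 := hP.2 w y h hw (by omega)
  rw [hprod] at hcnt
  obtain ⟨Pr, hPr⟩ : ∃ Pr : ℝ, Pr = ∏ p ∈ (pz y).filter (fun p => w < p), (1 - (nu4 k h p : ℝ) / p) := ⟨_, rfl⟩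
  rw [← hPr] at hcnt hP1
  obtain ⟨S, hS⟩ : ∃ S : Finset ℕ, S = (Icc 1 X).filter (fun m : ℕ => ∀ p ∈ pz y, ¬ Q p m) := ⟨_, rfl⟩
  rw [← hS] at hcnt
  -- the inclusion
  have hsub : (Icc 1 (2 * n)).filter (fun x => x ≡ ξ [MOD W] ∧ x.Prime ∧ (x + h).Prime ∧ (x + k).Prime ∧
      (x + k + h).Prime) ⊆ (Icc 1 y ∪ {a}) ∪ S.image (fun m => a + W * m) := by
    intro x hx
    obtain ⟨hx1, hx2, hx3, hx4, hx5, hx6⟩ := mem_filter.1 hx
    rw [mem_Icc] at hx1
    rw [mem_union, mem_union]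
    by_cases hxy : x ≤ y
    · exact Or.inl (Or.inl (mem_Icc.2 ⟨hx1.1, hxy⟩))
    have hxa : a + W * (x / W) = x := by
      have h1 : x % W = ξ % W := hx2
      rw [ha, ← h1]
      exact Nat.mod_add_div x W
    rcases Nat.eq_zero_or_pos (x / W) with h0 | h0
    · left
      right
      rw [mem_singleton]
      rw [h0, mul_zero, add_zero] at hxa
      exact hxa.symm
    right
    rw [mem_image]
    refine ⟨x / W, ?_, hxa⟩
    rw [hS, mem_filter, mem_Icc]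
    refine ⟨⟨h0, ?_⟩, fun p hp hQp => ?_⟩
    · rw [hX]
      exact Nat.div_le_div_right hx1.2
    · rw [hQ] at hQp
      obtain ⟨-, t, ht, hd⟩ := hQp
      rw [hxa] at hd
      obtain ⟨hp1, hp2⟩ := mem_pz.1 hp
      have h1 : (x + t).Prime := by
        rw [hT] at ht
        simp only [mem_insert, mem_singleton] at ht
        rcases ht with rfl | rfl | rfl | rfl
        · exact hx3
        · exact hx4
        · exact hx5
        · rw [← add_assoc]
          exact hx6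
      have h2 := (Nat.prime_dvd_prime_iff_eq hp2 h1).1 hd
      omega
  have hcard : (((Icc 1 (2 * n)).filter (fun x => x ≡ ξ [MOD W] ∧ x.Prime ∧ (x + h).Prime ∧ (x + k).Prime ∧
      (x + k + h).Prime)).card : ℝ) ≤ y + 1 + S.card := by
    have h1 := card_le_card hsub
    have h2 := card_union_le (Icc 1 y ∪ {a}) (S.image (fun m => a + W * m))
    have h3 := card_union_le (Icc 1 y) {a}
    have h4 : (S.image (fun m => a + W * m)).card ≤ S.card := card_image_le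
    rw [Nat.card_Icc, card_singleton] at h3
    have h5 : ((Icc 1 (2 * n)).filter (fun x => x ≡ ξ [MOD W] ∧ x.Prime ∧ (x + h).Prime ∧ (x + k).Prime ∧
      (x + k + h).Prime)).card ≤ y + 1 + S.card := by omega
    exact_mod_cast h5
  -- numbers
  have hWr : (1 : ℝ) ≤ W := by exact_mod_cast hW1
  have hyr : (1 : ℝ) ≤ y := by exact_mod_cast (by omega : 1 ≤ y)
  obtain ⟨s, hs⟩ : ∃ s : ℝ, s = √(n : ℝ) := ⟨_, rfl⟩
  have hs0 : 0 ≤ s := by rw [hs]; exact Real.sqrt_nonneg _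
  have hs2 : s ^ 2 = n := by rw [hs]; exact Real.sq_sqrt (Nat.cast_nonneg _)
  have hy8 : (y : ℝ) ^ 4 ≤ s := by
    have h1 : y ^ 8 ≤ n := (Nat.pow_le_pow_right (by omega) (by omega)).trans hy1
    have h2 : ((y : ℝ) ^ 4) ^ 2 ≤ s ^ 2 := by
      rw [hs2, ← pow_mul]
      exact_mod_cast h1
    exact le_of_sq_le_sq h2 hs0
  have hW9 : 9 * (W : ℝ) ^ 2 ≤ s := by
    have h1 : 81 * W ^ 4 ≤ n := le_trans (Nat.le_add_left _ _) hn
    have h2 : (9 * (W : ℝ) ^ 2) ^ 2 ≤ s ^ 2 := by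
      rw [hs2]
      have h3 : ((81 * W ^ 4 : ℕ) : ℝ) ≤ n := by exact_mod_cast h1
      push_cast at h3
      have h4 : (9 * (W : ℝ) ^ 2) ^ 2 = 81 * (W : ℝ) ^ 4 := by ring
      rw [h4]
      exact h3
    exact le_of_sq_le_sq h2 hs0
  have h3Wy : 3 * (W : ℝ) * (y : ℝ) ^ 2 ≤ s := by
    rcases le_total (3 * (W : ℝ)) ((y : ℝ) ^ 2) with h1 | h1
    · calc 3 * (W : ℝ) * (y : ℝ) ^ 2 ≤ (y : ℝ) ^ 2 * (y : ℝ) ^ 2 :=
            mul_le_mul_of_nonneg_right h1 (by positivity)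
        _ = (y : ℝ) ^ 4 := by ring
        _ ≤ s := hy8
    · calc 3 * (W : ℝ) * (y : ℝ) ^ 2 ≤ 3 * (W : ℝ) * (3 * (W : ℝ)) :=
            mul_le_mul_of_nonneg_left h1 (by positivity)
        _ = 9 * (W : ℝ) ^ 2 := by ring
        _ ≤ s := hW9
  have hy4 : (y : ℝ) ≤ s := by
    have h1 : (y : ℝ) ≤ (y : ℝ) ^ 4 := le_self_pow₀ hyr (by norm_num)
    exact h1.trans hy8
  have hG := GG_ge w k h
  obtain ⟨Pv, hPv⟩ : ∃ Pv : ℝ, Pv = Pi2 w y h := ⟨_, rfl⟩
  rw [← hPv] at hP1 hP2 ⊢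
  have hy0 : (0 : ℝ) < y := by linarith
  have hPv2 : 1 / (y : ℝ) ^ 2 ≤ Pv ^ 2 := by
    have h1 : (1 / (y : ℝ)) ^ 2 ≤ Pv ^ 2 := pow_le_pow_left₀ (by positivity) hP2 2
    rwa [div_pow, one_pow] at h1
  have hR : 3 * s ≤ (n : ℝ) / W * Pv ^ 2 * GG w k h := by
    calc 3 * s ≤ (n : ℝ) / W * (1 / (y : ℝ) ^ 2) * 1 := by
          rw [mul_one, ← hs2, div_mul_div_comm, mul_one, le_div_iff₀ (by positivity)]
          have := mul_le_mul_of_nonneg_left h3Wy hs0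
          nlinarith [this]
      _ ≤ (n : ℝ) / W * Pv ^ 2 * GG w k h := by
          apply mul_le_mul _ hG zero_le_one (by positivity)
          exact mul_le_mul_of_nonneg_left hPv2 (by positivity)
  have hXr : (X : ℝ) ≤ 2 * (n / W) := by
    rw [hX]
    have h1 : (((2 * n / W : ℕ)) : ℝ) ≤ ((2 * n : ℕ) : ℝ) / W := Nat.cast_div_le
    push_cast at h1
    rw [mul_div_assoc] at h1
    exact h1
  have hX0 : (0 : ℝ) ≤ X := Nat.cast_nonneg _
  have hcnt2 : (S.card : ℝ) ≤ 4 * ((n : ℝ) / W * Pv ^ 2 * GG w k h) + s := by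
    have h1 := (abs_le.1 hcnt).2
    have h2 : (X : ℝ) * Pr ≤ 2 * (n / W) * (Pv ^ 2 * GG w k h) := by
      calc (X : ℝ) * Pr ≤ X * (Pv ^ 2 * GG w k h) := mul_le_mul_of_nonneg_left hP1 hX0
        _ ≤ _ := mul_le_mul_of_nonneg_right hXr (by positivity)
    rw [← hs] at h1
    have h3 : 2 * (2 * ((n : ℝ) / W) * (Pv ^ 2 * GG w k h)) = 4 * ((n : ℝ) / W * Pv ^ 2 * GG w k h) := by ring
    linarith
  have h5 : 5 * ((n : ℝ) / W) * Pv ^ 2 * GG w k h = 4 * ((n : ℝ) / W * Pv ^ 2 * GG w k h) +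
      (n : ℝ) / W * Pv ^ 2 * GG w k h := by ring
  have h6 : (1 : ℝ) ≤ s := hyr.trans hy4
  rw [h5]
  linarith

end Pool.Agent.P8H84.GM
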