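import Pool.Agent.P8H84.GM.Maj
import Pool.Agent.H373R2.T7.FundC

/-!
# Project GM (helper49), package PP, first part: the system of conditions and the lower bound for the sieve sum
-/

set_option autoImplicit false

namespace Pool.Agent.P8H84.GM

open Finset
open Pool.Agent.H373R2.T7 (pz Vz mem_pz PerA rhoA rhoA_le lam_fund Vz_pos)
open Pool.Agent.P8H49.GM

/-- the system of conditions -/
def QQ (w ξ h p r : ℕ) : Prop := (p ≤ w ∧ r % p ≠ ξ % p) ∨ (w < p ∧ p ∣ r + h)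

theorem rho_small {w ξ h p : ℕ} (hp : p.Prime) (hw : p ≤ w) (hξ : ¬ p ∣ ξ) : rhoA (QQ w ξ h) p ≤ p - 2 := by
  classical
  unfold rhoA
  have hsub : (range p).filter (fun r => ¬ p ∣ r ∧ QQ w ξ h p r) ⊆ ((range p).erase 0).erase (ξ % p) := by
    intro r hr
    obtain ⟨h1, h2, h3⟩ := mem_filter.1 hr
    rw [mem_erase, mem_erase]
    refine ⟨?_, ?_, h1⟩
    · rintro rfl
      rcases h3 with ⟨-, h3⟩ | ⟨h3, -⟩
      · exact h3 (Nat.mod_mod _ _)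
      · omega
    · rintro rfl
      exact h2 (dvd_zero p)
  have hc := card_le_card hsub
  rw [card_erase_of_mem, card_erase_of_mem (mem_range.2 hp.pos), card_range] at hc
  · omega
  · rw [mem_erase, mem_range]
    exact ⟨fun h0 => hξ (Nat.dvd_of_mod_eq_zero h0), Nat.mod_lt _ hp.pos⟩

theorem rho_big {w ξ h p : ℕ} (hw : w < p) : rhoA (QQ w ξ h) p ≤ 1 := by
  classical
  unfold rhoA
  rw [card_le_one]
  have hget : ∀ r ∈ (range p).filter (fun r => ¬ p ∣ r ∧ QQ w ξ h p r), r < p ∧ p ∣ r + h := by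
    intro r hr
    obtain ⟨h1, h2, h3⟩ := mem_filter.1 hr
    refine ⟨mem_range.1 h1, ?_⟩
    rcases h3 with ⟨h3, -⟩ | ⟨-, h3⟩
    · omega
    · exact h3
  intro r hr r' hr'
  obtain ⟨h1, h2⟩ := hget r hr
  obtain ⟨h3, h4⟩ := hget r' hr'
  have h5 : r ≡ r' [MOD p] := Nat.ModEq.add_right_cancel' h
    ((Nat.modEq_zero_iff_dvd.2 h2).trans (Nat.modEq_zero_iff_dvd.2 h4).symm)
  exact h5.eq_of_lt_of_lt h1 h3

theorem perQ (w ξ h : ℕ) : PerA (QQ w ξ h) (w + 1) := by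
  refine ⟨fun p n => ?_, fun p hp => ?_⟩
  · unfold QQ
    have h1 : (n + h) ≡ (n % p + h) [MOD p] := ((Nat.mod_modEq n p).symm).add (Nat.ModEq.refl h)
    have h2 := h1.dvd_iff (dvd_refl p)
    rw [Nat.mod_mod, h2]
  · rcases Nat.lt_or_ge w p with h1 | h1
    · exact (rho_big h1).trans (by omega)
    · exact (rhoA_le _ _).trans (by omega)

theorem tel_full (N : ℕ) : 1 / 2 ≤ ∏ p ∈ Icc 3 N, (1 - 1 / ((p : ℝ) - 1) ^ 2) := by
  rcases Nat.lt_or_ge N 3 with h | h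
  · rw [Icc_eq_empty (by omega), prod_empty]
    norm_num
  · have h1 : ∏ p ∈ Icc 3 N, (1 - 1 / ((p : ℝ) - 1) ^ 2) = (N : ℝ) / (2 * ((N : ℝ) - 1)) := by
      induction N, h using Nat.le_induction with
      | base => norm_num
      | succ N hN ih =>
        rw [prod_Icc_succ_top (by omega), ih]
        have h3 : (3 : ℝ) ≤ N := by exact_mod_cast hN
        have h4 : (N : ℝ) - 1 ≠ 0 := by linarith
        have h5 : (N : ℝ) ≠ 0 := by linarith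
        push_cast
        have h6 : (N : ℝ) + 1 - 1 = N := by ring
        rw [h6]
        field_simp
        ring
    have h3 : (3 : ℝ) ≤ N := by exact_mod_cast h
    rw [h1, div_le_div_iff₀ (by norm_num) (by linarith)]
    linarith

theorem tel_fac {p : ℕ} (hp : 3 ≤ p) : 0 ≤ 1 - 1 / ((p : ℝ) - 1) ^ 2 ∧ 1 - 1 / ((p : ℝ) - 1) ^ 2 ≤ 1 := by
  have h3 : (3 : ℝ) ≤ p := by exact_mod_cast hp
  have h4 : 1 ≤ ((p : ℝ) - 1) ^ 2 := by nlinarith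
  have h5 : 1 / ((p : ℝ) - 1) ^ 2 ≤ 1 := by
    rw [div_le_one (by linarith)]
    exact h4
  have h6 : 0 ≤ 1 / ((p : ℝ) - 1) ^ 2 := by positivity
  constructor <;> linarith

theorem tel (N : ℕ) (S : Finset ℕ) (hS : S ⊆ Icc 3 N) : 1 / 2 ≤ ∏ p ∈ S, (1 - 1 / ((p : ℝ) - 1) ^ 2) := by
  refine (tel_full N).trans ?_
  rw [← prod_sdiff hS]
  have h1 : ∏ p ∈ Icc 3 N \ S, (1 - 1 / ((p : ℝ) - 1) ^ 2) ≤ 1 := by
    refine prod_le_one (fun p hp => ?_) (fun p hp => ?_)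
    · exact (tel_fac (mem_Icc.1 (mem_sdiff.1 hp).1).1).1
    · exact (tel_fac (mem_Icc.1 (mem_sdiff.1 hp).1).1).2
  have h2 : 0 ≤ ∏ p ∈ S, (1 - 1 / ((p : ℝ) - 1) ^ 2) :=
    prod_nonneg fun p hp => (tel_fac (mem_Icc.1 (hS hp)).1).1
  calc (∏ p ∈ Icc 3 N \ S, (1 - 1 / ((p : ℝ) - 1) ^ 2)) * ∏ p ∈ S, (1 - 1 / ((p : ℝ) - 1) ^ 2)
      ≤ 1 * ∏ p ∈ S, (1 - 1 / ((p : ℝ) - 1) ^ 2) := mul_le_mul_of_nonneg_right h1 h2
    _ = _ := one_mul _

theorem WV (w : ℕ) : (WW w : ℝ) * Vz w = ∏ p ∈ pz w, ((p : ℝ) - 1) := by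
  unfold WW Vz
  push_cast
  rw [← prod_mul_distrib]
  refine prod_congr rfl fun p hp => ?_
  have h0 : (p : ℝ) ≠ 0 := by exact_mod_cast (mem_pz.1 hp).2.ne_zero
  field_simp

theorem filter_le (w z : ℕ) (hwz : w ≤ z) : (pz z).filter (fun p => ¬ w < p) = pz w := by
  ext p
  rw [mem_filter, mem_pz, mem_pz]
  constructor
  · rintro ⟨⟨h1, h2⟩, h3⟩
    exact ⟨by omega, h2⟩
  · rintro ⟨h1, h2⟩
    exact ⟨⟨by omega, h2⟩, by omega⟩

theorem prod_low {w z ξ h : ℕ} (hw : 3 ≤ w) (hwz : w ≤ z) (hξ : ∀ p ∈ pz w, ¬ p ∣ ξ) :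
    Vz z / (2 * (WW w * Vz w ^ 2)) ≤ ∏ p ∈ pz z, (1 - (rhoA (QQ w ξ h) p : ℝ) / (p - 1 : ℝ)) := by
  have hV0 : 0 < Vz w := Vz_pos w
  have hW0 : (0 : ℝ) < WW w := by exact_mod_cast WW_pos w
  have hsplit : ∀ f : ℕ → ℝ, ∏ p ∈ pz z, f p = (∏ p ∈ (pz z).filter (fun p => w < p), f p) * ∏ p ∈ pz w, f p := by
    intro f
    rw [← prod_filter_mul_prod_filter_not (pz z) (fun p => w < p), filter_le w z hwz]
  obtain ⟨R, hR⟩ : ∃ R : Finset ℕ, R = (pz z).filter (fun p => w < p) := ⟨_, rfl⟩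
  have hRm : ∀ p ∈ R, w < p ∧ p ≤ z ∧ p.Prime := by
    intro p hp
    rw [hR, mem_filter, mem_pz] at hp
    exact ⟨hp.2, hp.1.1, hp.1.2⟩
  have hVz : Vz z = (∏ p ∈ R, (1 - 1 / (p : ℝ))) * Vz w := by
    unfold Vz
    rw [hsplit, hR]
  rw [hsplit, ← hR]
  -- the primes up to w
  have h1 : 1 / (WW w * Vz w) ≤ ∏ p ∈ pz w, (1 - (rhoA (QQ w ξ h) p : ℝ) / (p - 1 : ℝ)) := by
    rw [WV, one_div, ← prod_inv_distrib]
    refine prod_le_prod (fun p hp => ?_) (fun p hp => ?_)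
    · have h2 : (2 : ℝ) ≤ p := by exact_mod_cast (mem_pz.1 hp).2.two_le
      rw [inv_nonneg]
      linarith
    · obtain ⟨hp1, hp2⟩ := mem_pz.1 hp
      have h2 : (2 : ℝ) ≤ p := by exact_mod_cast hp2.two_le
      have h3 := rho_small (h := h) hp2 hp1 (hξ p hp)
      have h4 : ((rhoA (QQ w ξ h) p : ℕ) : ℝ) ≤ (p : ℝ) - 2 := by
        have h5 : rhoA (QQ w ξ h) p + 2 ≤ p := by
          have := hp2.two_le
          omega
        have h6 : ((rhoA (QQ w ξ h) p + 2 : ℕ) : ℝ) ≤ p := by exact_mod_cast h5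
        push_cast at h6
        linarith
      have h7 : (0 : ℝ) < (p : ℝ) - 1 := by linarith
      rw [inv_eq_one_div, div_le_iff₀ h7, sub_mul, div_mul_cancel₀ _ h7.ne']
      linarith
  have h2 : (∏ p ∈ R, (1 - 1 / (p : ℝ))) * (1 / 2) ≤ ∏ p ∈ R, (1 - (rhoA (QQ w ξ h) p : ℝ) / (p - 1 : ℝ)) := by
    have h3 : 1 / 2 ≤ ∏ p ∈ R, (1 - 1 / ((p : ℝ) - 1) ^ 2) := by
      refine tel z R fun p hp => ?_
      obtain ⟨h4, h5, -⟩ := hRm p hp
      exact mem_Icc.2 ⟨by omega, h5⟩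
    have h4 : 0 ≤ ∏ p ∈ R, (1 - 1 / (p : ℝ)) := by
      refine prod_nonneg fun p hp => ?_
      have h5 : (1 : ℝ) ≤ p := by exact_mod_cast (hRm p hp).2.2.one_le
      have h6 : 1 / (p : ℝ) ≤ 1 := by
        rw [div_le_one (by linarith)]
        exact h5
      linarith
    refine (mul_le_mul_of_nonneg_left h3 h4).trans ?_
    rw [← prod_mul_distrib]
    refine prod_le_prod (fun p hp => ?_) (fun p hp => ?_)
    · have h5 : (1 : ℝ) ≤ p := by exact_mod_cast (hRm p hp).2.2.one_le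
      have h6 : 1 / (p : ℝ) ≤ 1 := by
        rw [div_le_one (by linarith)]
        exact h5
      have h7 := (tel_fac (p := p) (by have := (hRm p hp).1; omega)).1
      exact mul_nonneg (by linarith) h7
    · have hp1 := (hRm p hp).1
      have h5 : (3 : ℝ) ≤ p := by exact_mod_cast (by omega : 3 ≤ p)
      have h6 : (0 : ℝ) < (p : ℝ) - 1 := by linarith
      have h7 : ((rhoA (QQ w ξ h) p : ℕ) : ℝ) ≤ 1 := by exact_mod_cast rho_big hp1
      have h8 : (rhoA (QQ w ξ h) p : ℝ) / (p - 1 : ℝ) ≤ 1 / (p - 1 : ℝ) := div_le_div_of_nonneg_right h7 h6.le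
      have h9 : (1 - 1 / (p : ℝ)) * (1 - 1 / ((p : ℝ) - 1) ^ 2) = 1 - 1 / ((p : ℝ) - 1) := by
        have h10 : (p : ℝ) ≠ 0 := by linarith
        field_simp
        ring
      rw [h9]
      linarith
  have h3 : 0 ≤ 1 / ((WW w : ℝ) * Vz w) := by positivity
  have h4 : 0 ≤ ∏ p ∈ R, (1 - (rhoA (QQ w ξ h) p : ℝ) / (p - 1 : ℝ)) := by
    refine le_trans (mul_nonneg (prod_nonneg fun p hp => ?_) (by norm_num)) h2
    have h5 : (1 : ℝ) ≤ p := by exact_mod_cast (hRm p hp).2.2.one_le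
    have h6 : 1 / (p : ℝ) ≤ 1 := by
      rw [div_le_one (by linarith)]
      exact h5
    linarith
  refine le_trans (le_of_eq ?_) (mul_le_mul h2 h1 h3 h4)
  rw [hVz]
  field_simp

theorem sum_window (f : ℕ → ℝ) (P : ℕ → Prop) [DecidablePred P] {A B : ℕ} (hAB : A ≤ B) :
    ∑ a ∈ (Ioc A B).filter P, f a = ∑ a ∈ (Icc 1 B).filter P, f a - ∑ a ∈ (Icc 1 A).filter P, f a := by
  have h1 : (Icc 1 B).filter P = (Icc 1 A).filter P ∪ (Ioc A B).filter P := by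
    ext a
    simp only [mem_union, mem_filter, mem_Icc, mem_Ioc]
    constructor
    · rintro ⟨h1, h2⟩
      rcases Nat.lt_or_ge A a with h | h
      · exact Or.inr ⟨⟨h, h1.2⟩, h2⟩
      · exact Or.inl ⟨⟨h1.1, h⟩, h2⟩
    · rintro (⟨h1, h2⟩ | ⟨h1, h2⟩)
      · exact ⟨⟨h1.1, by omega⟩, h2⟩
      · exact ⟨⟨by omega, h1.2⟩, h2⟩
  have h2 : Disjoint ((Icc 1 A).filter P) ((Ioc A B).filter P) := by
    rw [disjoint_left]
    intro a ha ha'
    rw [mem_filter, mem_Icc] at ha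
    rw [mem_filter, mem_Ioc] at ha'
    omega
  rw [h1, sum_union h2]
  ring

open Classical in
/-- the lower bound for the sieve sum over a window -/
theorem low_sum (w U : ℕ) : ∃ K : ℕ, 1 ≤ K ∧ ∃ x0 : ℕ, ∀ n z : ℕ, x0 ≤ z → z ^ K ≤ 2 * n →
    ∀ ξ h A B : ℕ, A ≤ B → B ≤ 2 * n → n ≤ 3 * (B - A) →
    (n : ℝ) / 4 * ∏ p ∈ pz z, (1 - (rhoA (QQ w ξ h) p : ℝ) / (p - 1 : ℝ)) - 4 * n / Real.log (2 * n) ^ U ≤
      ∑ a ∈ (Ioc A B).filter (fun a : ℕ => ∀ p ∈ pz z, ¬ QQ w ξ h p a), ArithmeticFunction.vonMangoldt a := by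
  obtain ⟨K, hK, h⟩ := lam_fund (w + 1) (by omega) (1 / 50) (by norm_num)
  obtain ⟨x0, h0⟩ := h U
  refine ⟨K, hK, x0, fun n z hz hzK ξ h A B hAB hB hn => ?_⟩
  have hA1 := (abs_le.1 (h0 (2 * n) z hz hzK (QQ w ξ h) (perQ w ξ h) A (by omega))).2
  have hB1 := (abs_le.1 (h0 (2 * n) z hz hzK (QQ w ξ h) (perQ w ξ h) B hB)).1
  rw [sum_window _ _ hAB]
  obtain ⟨P, hP⟩ : ∃ P : ℝ, P = ∏ p ∈ pz z, (1 - (rhoA (QQ w ξ h) p : ℝ) / (p - 1 : ℝ)) := ⟨_, rfl⟩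
  rw [← hP] at hA1 hB1 ⊢
  have hP0 : 0 ≤ P := by
    rw [hP]
    refine prod_nonneg fun p hp => ?_
    have h1 := rhoA_le (QQ w ξ h) p
    have h2 : (1 : ℝ) ≤ p := by exact_mod_cast (mem_pz.1 hp).2.one_le
    have h3 : ((rhoA (QQ w ξ h) p : ℕ) : ℝ) ≤ (p : ℝ) - 1 := by
      have h4 : rhoA (QQ w ξ h) p + 1 ≤ p := by
        have := (mem_pz.1 hp).2.two_le
        omega
      have h5 : ((rhoA (QQ w ξ h) p + 1 : ℕ) : ℝ) ≤ p := by exact_mod_cast h4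
      push_cast at h5
      linarith
    have h4 : (rhoA (QQ w ξ h) p : ℝ) / (p - 1 : ℝ) ≤ 1 := div_le_one_of_le₀ h3 (by linarith)
    linarith
  have hBA : (n : ℝ) ≤ 3 * ((B : ℝ) - A) := by
    have h1 : n + 3 * A ≤ 3 * B := by omega
    have h2 : ((n + 3 * A : ℕ) : ℝ) ≤ ((3 * B : ℕ) : ℝ) := by exact_mod_cast h1
    push_cast at h2
    linarith
  have hB2 : (B : ℝ) ≤ 2 * n := by exact_mod_cast hB
  have hA2 : (A : ℝ) ≤ 2 * n := by exact_mod_cast (by omega : A ≤ 2 * n)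
  push_cast at hA1 hB1
  have e1 : (2 * (n : ℝ)) / Real.log (2 * n) ^ U * 2 = 4 * n / Real.log (2 * n) ^ U := by ring
  have h5 : (n : ℝ) / 4 * P ≤ (B * P - 1 / 50 * (B * P)) - (A * P + 1 / 50 * (A * P)) := by
    have h6 : (n : ℝ) / 4 ≤ (B - 1 / 50 * B) - (A + 1 / 50 * A) := by linarith
    have h7 := mul_le_mul_of_nonneg_right h6 hP0
    linarith
  linarith

end Pool.Agent.P8H84.GM
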