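import Pool.Agent.P8H84.GM.Pp

/-!
# Project GM (helper49), package PP2: prime pairs `x, x + h` in a class modulo `W` and a short window, for almost all `h`
-/

set_option autoImplicit false

namespace Pool.Agent.P8H84.GM

open Finset
open Pool.Agent.H373R2.T7 (pz Vz mem_pz PerA rhoA rhoA_le Vz_pos lamz lamz_nonneg lamI lamzI bil_lam l1_of_bil
  Vz_inv_le ev_log' ev_L' lam_fund)
open Pool.Agent.P8H49.GM

open Classical in
/-- the lower bound for the sieve sum over a window -/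
theorem low_sum2 (w U : ℕ) (κ : ℝ) (hκ : 0 < κ) : ∃ K : ℕ, 1 ≤ K ∧ ∃ x0 : ℕ, ∀ n z : ℕ, x0 ≤ z → z ^ K ≤ 2 * n →
    ∀ ξ h A B : ℕ, A ≤ B → B ≤ 2 * n → κ * n ≤ (B : ℝ) - A →
    κ * n / 2 * ∏ p ∈ pz z, (1 - (rhoA (QQ w ξ h) p : ℝ) / (p - 1 : ℝ)) - 4 * n / Real.log (2 * n) ^ U ≤
      ∑ a ∈ (Ioc A B).filter (fun a : ℕ => ∀ p ∈ pz z, ¬ QQ w ξ h p a), ArithmeticFunction.vonMangoldt a := by
  obtain ⟨K, hK, h⟩ := lam_fund (w + 1) (by omega) (κ / 50) (by positivity)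
  obtain ⟨x0, h0⟩ := h U
  refine ⟨K, hK, x0, fun n z hz hzK ξ h A B hAB hB hn => ?_⟩
  have hA1 := (abs_le.1 (h0 (2 * n) z hz hzK (QQ w ξ h) (perQ w ξ h) A (by omega))).2
  have hB1 := (abs_le.1 (h0 (2 * n) z hz hzK (QQ w ξ h) (perQ w ξ h) B hB)).1
  rw [sum_window _ _ hAB]
  obtain ⟨P, hP⟩ : ∃ P : ℝ, P = ∏ p ∈ pz z, (1 - (rhoA (QQ w ξ h) p : ℝ) / (p - 1 : ℝ)) := ⟨_, rfl⟩
  rw [← hP] at hA1 hB1 ⊢
  have hP0 : 0 ≤ P := by
    rw [hP]
    refine prod_nonneg fun p hp => ?_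
    have h1 := rhoA_le (QQ w ξ h) p
    have h2 : (1 : ℝ) ≤ p := by exact_mod_cast (mem_pz.1 hp).2.one_le
    have h3 : ((rhoA (QQ w ξ h) p : ℕ) : ℝ) ≤ (p : ℝ) - 1 := by
      have h4 : rhoA (QQ w ξ h) p + 1 ≤ p := by
        have := (mem_pz.1 hp).2.two_le
        omega
      have h5 : ((rhoA (QQ w ξ h) p + 1 : ℕ) : ℝ) ≤ p := by exact_mod_cast h4
      push_cast at h5
      linarith
    have h4 : (rhoA (QQ w ξ h) p : ℝ) / (p - 1 : ℝ) ≤ 1 := div_le_one_of_le₀ h3 (by linarith)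
    linarith
  have hB2 : (B : ℝ) ≤ 2 * n := by exact_mod_cast hB
  have hA2 : (A : ℝ) ≤ 2 * n := by exact_mod_cast (by omega : A ≤ 2 * n)
  push_cast at hA1 hB1
  have e1 : (2 * (n : ℝ)) / Real.log (2 * n) ^ U * 2 = 4 * n / Real.log (2 * n) ^ U := by ring
  have h5 : κ * n / 2 * P ≤ (B * P - κ / 50 * (B * P)) - (A * P + κ / 50 * (A * P)) := by
    have h8 : κ * ((A : ℝ) + B) ≤ κ * (4 * n) := mul_le_mul_of_nonneg_left (by linarith) hκ.le
    have h6 : κ * n / 2 ≤ (B - κ / 50 * B) - (A + κ / 50 * A) := by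
      have h9 : 0 ≤ κ * n := by positivity
      linarith
    have h7 := mul_le_mul_of_nonneg_right h6 hP0
    linarith
  linarith

open Classical in
/-- the form with a parameter for the length of the window -/
def S_PP2 : Prop := ∃ c0 : ℝ, 0 < c0 ∧ ∀ κ : ℝ, 0 < κ → ∀ w : ℕ, 3 ≤ w → ∀ ε : ℝ, 0 < ε → ∃ n0 : ℕ, ∀ n : ℕ, n0 ≤ n →
  ∀ A B ξ : ℕ, A ≤ B → B ≤ 2 * n → κ * n ≤ (B : ℝ) - A →
  (((Icc 1 n).filter (fun h => (∀ p ∈ pz w, ¬ p ∣ ξ ∧ ¬ p ∣ ξ + h) ∧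
    ((PP (WW w) ξ A B h).card : ℝ) < c0 * κ * (n / (WW w * Vz w ^ 2 * Real.log n ^ 2)))).card : ℝ) ≤ ε * n

open Classical in
theorem t_pp2 : S_PP2 := by
  obtain ⟨B0, hbil⟩ := bil_lam Polynomial.X (by simp) (by simp) 3 (by norm_num) 6
  obtain ⟨N0, hN0⟩ := hbil (B0 + 2)
  refine ⟨1 / 64, by norm_num, fun κ hκ w hw ε hε => ?_⟩
  obtain ⟨K, hK, x0, hlow⟩ := low_sum2 w (B0 + 3) κ hκ
  obtain ⟨T', hT'⟩ : ∃ T' : ℝ, T' = WW w * Vz w ^ 2 := ⟨_, rfl⟩
  obtain ⟨T, hT⟩ : ∃ T : ℝ, T = T' / (2 * κ) := ⟨_, rfl⟩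
  have hV0 : 0 < Vz w := Vz_pos w
  have hW0 : (0 : ℝ) < WW w := by exact_mod_cast WW_pos w
  have hT0' : 0 < T' := by
    rw [hT']
    positivity
  have hT0 : 0 < T := by
    rw [hT]
    positivity
  have hTT : T' = 2 * κ * T := by
    rw [hT]
    field_simp
  obtain ⟨m1, h1⟩ := ev_log' ((B0 + 2) * K) 1
  obtain ⟨m2, h2⟩ := ev_L' (x0 + w + 2 + 80 * T + 2 / ε)
  obtain ⟨m3, h3⟩ := ev_log' 2 (1024 * T)
  refine ⟨N0 + m1 + m2 + m3 + 3, fun n hn A B ξ hAB hB hnAB => ?_⟩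
  have hn1 : 1 ≤ n := by omega
  have hnr : (1 : ℝ) ≤ n := by exact_mod_cast hn1
  have hn0 : (0 : ℝ) < n := by linarith
  have hL1 := h1 n (by omega)
  have hL2 := h2 n (by omega)
  have hL3 := h3 n (by omega)
  have h2ε : 0 < 2 / ε := by positivity
  obtain ⟨L, hL⟩ : ∃ L : ℝ, L = Real.log n := ⟨_, rfl⟩
  rw [← hL] at hL1 hL2 hL3
  have hx0r : (0 : ℝ) ≤ x0 := Nat.cast_nonneg _
  have hwr : (0 : ℝ) ≤ w := Nat.cast_nonneg _
  have hL2' : 2 ≤ L := by linarith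
  have hL0 : 0 < L := by linarith
  -- the level
  obtain ⟨z, hz⟩ : ∃ z : ℕ, z = ⌈L ^ (B0 + 1)⌉₊ := ⟨_, rfl⟩
  have hz1 : L ^ (B0 + 1) ≤ z := by
    rw [hz]
    exact Nat.le_ceil _
  have hz2 : (z : ℝ) < L ^ (B0 + 1) + 1 := by
    rw [hz]
    exact Nat.ceil_lt_add_one (by positivity)
  have hLp : ∀ k : ℕ, 1 ≤ L ^ k := fun k => one_le_pow₀ (by linarith)
  have hz3 : L ^ B0 ≤ z := by
    refine le_trans ?_ hz1
    exact pow_le_pow_right₀ (by linarith) (by omega)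
  have hz4 : (z : ℝ) ≤ L ^ (B0 + 2) := by
    have e1 : L ^ (B0 + 2) = L * L ^ (B0 + 1) := by ring
    have e2 := hLp (B0 + 1)
    rw [e1]
    nlinarith
  have hz5 : L ≤ z := by
    refine le_trans ?_ hz1
    exact le_self_pow₀ (by linarith) (by omega)
  have hzx : x0 ≤ z := by
    have : (x0 : ℝ) ≤ z := by linarith
    exact_mod_cast this
  have hzw : w ≤ z := by
    have : (w : ℝ) ≤ z := by linarith
    exact_mod_cast this
  have hz1' : 1 ≤ z := by omega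
  have hzK : z ^ K ≤ 2 * n := by
    have e1 : (z : ℝ) ^ K ≤ n := by
      calc (z : ℝ) ^ K ≤ (L ^ (B0 + 2)) ^ K := pow_le_pow_left₀ (Nat.cast_nonneg _) hz4 K
        _ = 1 * L ^ ((B0 + 2) * K) := by rw [← pow_mul, one_mul]
        _ ≤ √(n : ℝ) := hL1
        _ ≤ n := by
          rw [Real.sqrt_le_left (by linarith)]
          nlinarith
    have e2 : z ^ K ≤ n := by exact_mod_cast e1
    omega
  -- the bilinear estimate
  obtain ⟨M2, hM2⟩ : ∃ M2 : ℝ, M2 = Real.log ((2 * n : ℕ) : ℝ) := ⟨_, rfl⟩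
  have hlog2 : Real.log 2 ≤ 1 := by
    have := Real.log_two_lt_d9
    linarith
  have hlog2' : 0 < Real.log 2 := Real.log_pos (by norm_num)
  have hM2L : M2 = Real.log 2 + L := by
    rw [hM2, hL]
    push_cast
    rw [Real.log_mul (by norm_num) hn0.ne']
  have hM20 : 0 < M2 := by linarith
  obtain ⟨D, hD⟩ : ∃ D : ℕ → ℕ → ℝ, D = fun (a m : ℕ) => lamI ((a : ℤ) + 1 * (Polynomial.X : Polynomial ℤ).eval (m : ℤ)) -
    lamzI z ((a : ℤ) + 1 * (Polynomial.X : Polynomial ℤ).eval (m : ℤ)) := ⟨_, rfl⟩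
  have hl1 := l1_of_bil (2 * n) n D (n * n / L ^ 6) M2 hM20 (by
    intro G c hG hc
    rw [hD, hL]
    exact hN0 n (by omega) n (by simp; omega) (by simp; omega) (2 * n) (by omega) z (by rw [← hL]; exact hz3)
      (by rw [← hL]; exact hz4) 1 (Or.inl rfl) G c hG hc) (Gw (WW w) ξ A B) (by
    intro a ha
    rw [mem_Icc] at ha
    rw [abs_of_nonneg (Gw_nonneg _ _ _ _ _), hM2]
    exact (Gw_le _ _ _ _ _).trans (lam_le_log ha.1 ha.2))
  -- the exceptional h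
  obtain ⟨Bad, hBad⟩ : ∃ Bad : Finset ℕ, Bad = (Icc 1 n).filter
    (fun m => (n : ℝ) / L < |∑ a ∈ Icc 1 (2 * n), Gw (WW w) ξ A B a * D a m|) := ⟨_, rfl⟩
  have hBadc : (Bad.card : ℝ) ≤ ε * n := by
    have e1 : (Bad.card : ℝ) * (n / L) ≤ M2 * (n * n / L ^ 6) := by
      refine le_trans ?_ hl1
      calc (Bad.card : ℝ) * (n / L) = ∑ _m ∈ Bad, (n : ℝ) / L := by rw [sum_const, nsmul_eq_mul]
        _ ≤ ∑ m ∈ Bad, |∑ a ∈ Icc 1 (2 * n), Gw (WW w) ξ A B a * D a m| := by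
          refine sum_le_sum fun m hm => ?_
          rw [hBad, mem_filter] at hm
          exact hm.2.le
        _ ≤ _ := by
          rw [hBad]
          exact sum_le_sum_of_subset_of_nonneg (filter_subset _ _) fun _ _ _ => abs_nonneg _
    have e2 : M2 * (n * n / L ^ 6) ≤ (2 * L) * (n * n / L ^ 6) := by
      refine mul_le_mul_of_nonneg_right ?_ (by positivity)
      linarith
    have e3 : (2 * L) * (n * n / L ^ 6) = (2 * n / L ^ 4) * (n / L) := by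
      field_simp
    have e4 : (Bad.card : ℝ) ≤ 2 * n / L ^ 4 := by
      have := e1.trans e2
      rw [e3] at this
      exact le_of_mul_le_mul_right this (by positivity)
    refine e4.trans ?_
    rw [div_le_iff₀ (by positivity)]
    have e5 : 2 / ε ≤ L ^ 4 := by
      have : L ≤ L ^ 4 := le_self_pow₀ (by linarith) (by norm_num)
      linarith
    rw [div_le_iff₀ hε] at e5
    nlinarith
  refine le_trans ?_ hBadc
  rw [Nat.cast_le]
  refine card_le_card fun h hh => ?_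
  obtain ⟨hh1, hh2, hh3⟩ := mem_filter.1 hh
  rw [hBad, mem_filter]
  refine ⟨hh1, ?_⟩
  rw [mem_Icc] at hh1
  by_contra hnot
  rw [not_lt] at hnot
  -- the sums
  have hsum : ∑ a ∈ Icc 1 (2 * n), Gw (WW w) ξ A B a * D a h =
      ∑ a ∈ Icc 1 (2 * n), Gw (WW w) ξ A B a * ArithmeticFunction.vonMangoldt (a + h) -
      ∑ a ∈ Icc 1 (2 * n), Gw (WW w) ξ A B a * lamz z (a + h) := by
    rw [← sum_sub_distrib]
    refine sum_congr rfl fun a ha => ?_
    rw [mem_Icc] at ha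
    rw [hD]
    simp only
    rw [lamI_eq a h ha.1, lamzI_eq z a h ha.1]
    ring
  have g1 := (abs_le.1 hnot).1
  rw [hsum] at g1
  have g2 := up_sum n (WW w) ξ A B h hn1 hh1.2
  have g3 := down_sum n w z ξ A B h hzw hB (fun p hp => (hh2 p hp).2)
  have g4 := hlow n z hzx hzK ξ h A B hAB hB hnAB
  have g5 := prod_low (h := h) hw hzw (fun p hp => (hh2 p hp).1)
  obtain ⟨P, hP⟩ : ∃ P : ℝ, P = ∏ p ∈ pz z, (1 - (rhoA (QQ w ξ h) p : ℝ) / (p - 1 : ℝ)) := ⟨_, rfl⟩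
  rw [← hP] at g4 g5
  rw [← hT', hTT] at g5
  have hVz0 : 0 < Vz z := Vz_pos z
  have hVi : (Vz z)⁻¹ ≤ z := Vz_inv_le z hz1'
  have hVi0 : 0 < (Vz z)⁻¹ := inv_pos.2 hVz0
  -- the main term
  have g6 : (n : ℝ) / (8 * T) ≤ (Vz z)⁻¹ * (κ * n / 2 * P) := by
    calc (n : ℝ) / (8 * T) = (Vz z)⁻¹ * (κ * n / 2 * (Vz z / (2 * (2 * κ * T)))) := by
          field_simp
          ring
      _ ≤ _ := mul_le_mul_of_nonneg_left (mul_le_mul_of_nonneg_left g5 (by positivity)) hVi0.le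
  have g7 : (Vz z)⁻¹ * (4 * n / Real.log (2 * n) ^ (B0 + 3)) ≤ 4 * n / L := by
    have e1 : Real.log (2 * (n : ℝ)) = M2 := by
      rw [hM2]
      push_cast
      rfl
    rw [e1]
    have e2 : L ^ (B0 + 3) ≤ M2 ^ (B0 + 3) := pow_le_pow_left₀ hL0.le (by linarith) _
    calc (Vz z)⁻¹ * (4 * n / M2 ^ (B0 + 3)) ≤ L ^ (B0 + 2) * (4 * n / L ^ (B0 + 3)) := by
          apply mul_le_mul (hVi.trans hz4) _ (by positivity) (by positivity)
          exact div_le_div_of_nonneg_left (by positivity) (by positivity) e2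
      _ = 4 * n / L := by
          rw [show B0 + 3 = (B0 + 2) + 1 by ring, pow_succ L (B0 + 2)]
          field_simp
  have g8 : (n : ℝ) / (8 * T) - 4 * n / L ≤
      ∑ a ∈ Icc 1 (2 * n), Gw (WW w) ξ A B a * lamz z (a + h) := by
    refine le_trans ?_ g3
    refine le_trans ?_ (mul_le_mul_of_nonneg_left g4 hVi0.le)
    rw [mul_sub]
    linarith
  have g9 : 5 * ((n : ℝ) / L) ≤ n / (16 * T) := by
    rw [← mul_div_assoc, div_le_div_iff₀ hL0 (by positivity)]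
    have e1 : 80 * T ≤ L := by linarith
    calc 5 * (n : ℝ) * (16 * T) = n * (80 * T) := by ring
      _ ≤ n * L := mul_le_mul_of_nonneg_left e1 hn0.le
  have g10 : (n : ℝ) / (16 * T) ≤ ∑ a ∈ Icc 1 (2 * n), Gw (WW w) ξ A B a * ArithmeticFunction.vonMangoldt (a + h) := by
    have e1 : (n : ℝ) / (8 * T) = n / (16 * T) + n / (16 * T) := by
      field_simp
      ring
    have e2 : 4 * (n : ℝ) / L = 4 * (n / L) := by ring
    rw [e2] at g8
    linarith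
  -- the logarithm of 3 n
  obtain ⟨M, hM⟩ : ∃ M : ℝ, M = Real.log ((3 * n : ℕ) : ℝ) := ⟨_, rfl⟩
  rw [← hM] at g2
  have hlog3 : Real.log 3 ≤ 2 := by
    have := Real.log_le_sub_one_of_pos (show (0 : ℝ) < 3 by norm_num)
    linarith
  have hM1 : M ≤ 2 * L := by
    rw [hM, hL]
    push_cast
    rw [Real.log_mul (by norm_num) hn0.ne', ← hL]
    linarith
  have hM0 : 0 ≤ M := by
    rw [hM]
    exact Real.log_natCast_nonneg _
  have hMsq : M ^ 2 ≤ 4 * L ^ 2 := by nlinarith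
  have hs3 : √((3 * n : ℕ) : ℝ) ≤ 2 * √(n : ℝ) := by
    rw [Real.sqrt_le_left (by positivity), mul_pow, Real.sq_sqrt hn0.le]
    push_cast
    linarith
  have hsq : √(n : ℝ) * √(n : ℝ) = n := Real.mul_self_sqrt hn0.le
  have hsq0 : 0 ≤ √(n : ℝ) := Real.sqrt_nonneg _
  have g11 : 4 * √((3 * n : ℕ) : ℝ) * M ^ 2 ≤ n / (32 * T) := by
    calc 4 * √((3 * n : ℕ) : ℝ) * M ^ 2 ≤ 4 * (2 * √(n : ℝ)) * (4 * L ^ 2) := by
          apply mul_le_mul _ hMsq (by positivity) (by positivity)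
          linarith
      _ = (1024 * T * L ^ 2) * √(n : ℝ) / (32 * T) := by
          field_simp
          ring
      _ ≤ (√(n : ℝ)) * √(n : ℝ) / (32 * T) := by
          apply div_le_div_of_nonneg_right _ (by positivity)
          exact mul_le_mul_of_nonneg_right hL3 hsq0
      _ = n / (32 * T) := by rw [hsq]
  have g12 : (n : ℝ) / (32 * T) ≤ (PP (WW w) ξ A B h).card * M ^ 2 := by
    have e1 : (n : ℝ) / (16 * T) = n / (32 * T) + n / (32 * T) := by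
      field_simp
      ring
    linarith
  have g13 : (n : ℝ) / (32 * T) ≤ (PP (WW w) ξ A B h).card * (4 * L ^ 2) :=
    g12.trans (mul_le_mul_of_nonneg_left hMsq (Nat.cast_nonneg _))
  rw [← hT', ← hL, hTT] at hh3
  have g14 : ((PP (WW w) ξ A B h).card : ℝ) * (4 * L ^ 2) < n / (32 * T) := by
    calc ((PP (WW w) ξ A B h).card : ℝ) * (4 * L ^ 2) < (1 / 64 * κ * (n / (2 * κ * T * L ^ 2))) * (4 * L ^ 2) := by
          apply mul_lt_mul_of_pos_right hh3 (by positivity)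
      _ = n / (32 * T) := by
          field_simp
          ring
  linarith

end Pool.Agent.P8H84.GM
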